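import Pool.Agent.H239.NBS.Inner

/-!
# The outer energy of the nonwandering points of the spatial three-body problem

Let `E < 0` and let the body `c` be far from the tight pair `a`, `b`. `X` and `V` are the position and the velocity
of `c` relative to the centre of mass of the pair, `M` is the total mass. At a nonwandering point
`|V|² |X| ≤ 2 M + O(1 / (E |X|)²)` with explicit constants: the osculating outer Kepler orbit is an ellipse, or exceeds
the parabolic energy at most by a quantity of the order of the quadrupole term of the pair. Consequently the energy of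
the pair is `E + O(1 / |X|)`. Points at which the inequality fails escape in one direction of time.
-/

set_option autoImplicit false

open MeasureTheory

namespace Pool.Agent.Results.MP_70f7a7_an.SharpOuterEnergy

/-- The space `R³`. -/
abbrev R3 : Type := EuclideanSpace ℝ (Fin 3)

/-- Phase space: pairs (positions, momenta) of `N` bodies. -/
abbrev Phase (N : ℕ) : Type := (Fin N → R3) × (Fin N → R3)

/-- Kinetic energy of the momenta `p`. -/
noncomputable def kinetic {N : ℕ} (m : Fin N → ℝ) (p : Fin N → R3) : ℝ :=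
  ∑ i, ‖p i‖ ^ 2 / (2 * m i)

/-- The Newtonian potential `U(q) = ∑_{i<j} m_i m_j / |q_i - q_j|` (the energy is kinetic energy minus `U`). -/
noncomputable def potential {N : ℕ} (m : Fin N → ℝ) (q : Fin N → R3) : ℝ :=
  ∑ i, ∑ j, m i * m j / ‖q i - q j‖ / 2

/-- The energy surface `H = E` of the reduced `N`-body problem (centre of mass `0`, total momentum `0`, no
collisions). -/
def surface {N : ℕ} (m : Fin N → ℝ) (E : ℝ) : Set (Phase N) :=
  {x | (∀ i j, i ≠ j → x.1 i ≠ x.1 j) ∧ ∑ i, m i • x.1 i = 0 ∧ ∑ i, x.2 i = 0 ∧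
    kinetic m x.2 - potential m x.1 = E}

/-- `φ` is the complete flow on the energy surface obtained from the `N`-body flow by a smooth positive change of
time `ψ`. -/
structure IsReparametrizedFlow {N : ℕ} (m : Fin N → ℝ) (E : ℝ) (ψ : Phase N → ℝ)
    (φ : ℝ → Phase N → Phase N) : Prop where
  /-- `ψ` is smooth outside collisions -/
  smooth : ContDiffOn ℝ ((⊤ : ℕ∞) : WithTop ℕ∞) ψ {x | ∀ i j, i ≠ j → x.1 i ≠ x.1 j}
  /-- `ψ` is positive outside collisions -/
  pos : ∀ x : Phase N, (∀ i j, i ≠ j → x.1 i ≠ x.1 j) → 0 < ψ x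
  /-- orbits exist for all times and solve the reparametrized equations of motion -/
  flow : ∀ x ∈ surface m E, φ 0 x = x ∧ ∀ t : ℝ, φ t x ∈ surface m E ∧
    HasDerivAt (fun s : ℝ => φ s x)
      (ψ (φ t x) • ((fun i => (m i)⁻¹ • (φ t x).2 i),
        (fun i => ∑ j, (m i * m j / ‖(φ t x).1 j - (φ t x).1 i‖ ^ 3) •
          ((φ t x).1 j - (φ t x).1 i)))) t

/-- `x` is a nonwandering point of the flow `φ` on the energy surface `S`. -/
def IsNonwandering {N : ℕ} (S : Set (Phase N)) (φ : ℝ → Phase N → Phase N) (x : Phase N) : Prop :=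
  ∀ V : Set (Phase N), IsOpen V → x ∈ V → ∀ T : ℝ, ∃ t : ℝ, T < t ∧ ∃ y ∈ V ∩ S, φ t y ∈ V

/-- The physical time that elapses along the orbit of `x` between the parameters `0` and `s` of the reparametrized
flow. -/
noncomputable def physicalTime {N : ℕ} (ψ : Phase N → ℝ) (φ : ℝ → Phase N → Phase N)
    (x : Phase N) (s : ℝ) : ℝ := ∫ u in (0:ℝ)..s, ψ (φ u x)

/-- The position `X` of the body `c` relative to the centre of mass of the bodies `a`, `b`. -/
noncomputable def relPosition (m : Fin 3 → ℝ) (a b c : Fin 3) (x : Phase 3) : R3 :=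
  x.1 c - (m a + m b)⁻¹ • (m a • x.1 a + m b • x.1 b)

/-- The velocity `V` of the body `c` relative to the centre of mass of the bodies `a`, `b` (the velocity of a body
is its momentum divided by its mass). -/
noncomputable def relVelocity (m : Fin 3 → ℝ) (a b c : Fin 3) (x : Phase 3) : R3 :=
  (m c)⁻¹ • x.2 c - (m a + m b)⁻¹ • (x.2 a + x.2 b)

/-- The energy of the pair `a`, `b` in its centre of mass frame. -/
noncomputable def pairEnergy (m : Fin 3 → ℝ) (a b : Fin 3) (x : Phase 3) : ℝ :=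
  m a * m b / (m a + m b) * ‖(m a)⁻¹ • x.2 a - (m b)⁻¹ • x.2 b‖ ^ 2 / 2 - m a * m b / ‖x.1 a - x.1 b‖

/-- `m_0 m_1 + m_1 m_2 + m_2 m_0` -/
def pairs (m : Fin 3 → ℝ) : ℝ := m 0 * m 1 + m 1 * m 2 + m 2 * m 0

/-- `c` is an outer body: `a`, `b`, `c` are the three bodies, `|q_a - q_b| < |X| / 2` and `40 pairs < |X| (-E)`. -/
def IsOuter (m : Fin 3 → ℝ) (E : ℝ) (a b c : Fin 3) (x : Phase 3) : Prop :=
  (a ≠ b ∧ c ≠ a ∧ c ≠ b) ∧ 2 * ‖x.1 a - x.1 b‖ < ‖relPosition m a b c x‖ ∧
    40 * pairs m < ‖relPosition m a b c x‖ * (-E)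

theorem relPosition_eq (m : Fin 3 → ℝ) (hm : ∀ i, 0 < m i) (x : Phase 3) (hx : ∑ i, m i • x.1 i = 0)
    (a b c : Fin 3) (hab : a ≠ b) (hca : c ≠ a) (hcb : c ≠ b) :
    relPosition m a b c x = ((∑ i, m i) / (m a + m b)) • x.1 c := by
  have hma := hm a
  have hmb := hm b
  have hs : m a + m b ≠ 0 := by positivity
  rw [Pool.Agent.T6.H53.NB.sum3 _ a b c hab hca hcb] at hx ⊢
  have h : m a • x.1 a + m b • x.1 b = -(m c • x.1 c) := by
    rw [← add_assoc] at hx
    exact eq_neg_of_add_eq_zero_left hx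
  unfold relPosition
  rw [h]
  match_scalars
  field_simp
  ring

theorem relVelocity_eq (m : Fin 3 → ℝ) (hm : ∀ i, 0 < m i) (x : Phase 3) (hx : ∑ i, x.2 i = 0)
    (a b c : Fin 3) (hab : a ≠ b) (hca : c ≠ a) (hcb : c ≠ b) :
    relVelocity m a b c x = ((∑ i, m i) / (m a + m b)) • (m c)⁻¹ • x.2 c := by
  have hma := hm a
  have hmb := hm b
  have hmc := hm c
  have hs : m a + m b ≠ 0 := by positivity
  rw [Pool.Agent.T6.H53.NB.sum3 _ a b c hab hca hcb] at hx
  rw [Pool.Agent.T6.H53.NB.sum3 _ a b c hab hca hcb]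
  have h : x.2 a + x.2 b = -(x.2 c) := by
    rw [← add_assoc] at hx
    exact eq_neg_of_add_eq_zero_left hx
  unfold relVelocity
  rw [h]
  match_scalars
  field_simp
  ring

theorem pairs_eq (m : Fin 3 → ℝ) (a b c : Fin 3) (hab : a ≠ b) (hca : c ≠ a) (hcb : c ≠ b) :
    m a * m b + m b * m c + m c * m a = pairs m := by
  unfold pairs
  fin_cases a <;> fin_cases b <;> fin_cases c <;> simp_all <;> ring

theorem result (m : Fin 3 → ℝ) (hm : ∀ i, 0 < m i) (E : ℝ) (hE : E < 0)
    (ψ : Phase 3 → ℝ) (φ : ℝ → Phase 3 → Phase 3) (hφ : IsReparametrizedFlow m E ψ φ) :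
    -- (1) far away from the triple collision there is an outer body
    (∀ x ∈ surface m E, (∃ i j, 42 * pairs m < ‖x.1 i - x.1 j‖ * (-E)) → ∃ a b c, IsOuter m E a b c x) ∧
    -- (2) the outer energy and the energy of the pair at a nonwandering point
    (∀ x ∈ surface m E, IsNonwandering (surface m E) φ x → ∀ a b c, IsOuter m E a b c x →
      ∀ X V : R3, X = relPosition m a b c x → V = relVelocity m a b c x →
        ‖V‖ ^ 2 * ‖X‖ ≤ 2 * (∑ i, m i) * (1 + 240 * (m a * m b / (E * ‖X‖)) ^ 2) ∧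
        -(241 * (m c * (m a + m b)) / ‖X‖ * (m a * m b / (E * ‖X‖)) ^ 2) ≤ pairEnergy m a b x - E ∧
        pairEnergy m a b x - E ≤ m c * (m a + m b) / ‖X‖ * (1 + 2 * (m a * m b / (E * ‖X‖)) ^ 2)) ∧
    -- (3) if the inequality for `V` fails, the outer body escapes
    (∀ x ∈ surface m E, ∀ a b c, IsOuter m E a b c x →
      ∀ X V : R3, X = relPosition m a b c x → V = relVelocity m a b c x → 0 < inner ℝ X V →
        2 * (∑ i, m i) * (1 + 240 * (m a * m b / (E * ‖X‖)) ^ 2) < ‖V‖ ^ 2 * ‖X‖ →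
        ∀ s, 0 ≤ s → ‖X‖ ^ 2 + 2 * inner ℝ X V * physicalTime ψ φ x s ≤
          ‖relPosition m a b c (φ s x)‖ ^ 2) := by
  have hfl : Pool.Agent.Y516.NW.IsFl m E ψ φ := ⟨hφ.smooth.continuousOn, hφ.pos, hφ.flow⟩
  have hsq : ∀ (p z : ℝ), (p / (E * z)) ^ 2 = (p / (z * (-E))) ^ 2 := by
    intro p z
    have : z * (-E) = -(E * z) := by ring
    rw [this, div_neg, neg_sq]
  have hpairs : ∀ a b c : Fin 3, a ≠ b → c ≠ a → c ≠ b → 40 * (m a * m b) * ((∑ i, m i) / (m a + m b)) ≤
      40 * pairs m := by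
    intro a b c hab hca hcb
    have hma := hm a
    have hmb := hm b
    have hmc := hm c
    rw [← pairs_eq m a b c hab hca hcb, Pool.Agent.T6.H53.NB.sum3 _ a b c hab hca hcb, ← mul_div_assoc,
      div_le_iff₀ (by positivity)]
    have h1 : 0 ≤ m c * (m a * m a) + m c * (m b * m b) + m a * m b * m c := by positivity
    nlinarith
  refine ⟨?_, ?_, ?_⟩
  · rintro x hx ⟨i, j, hij⟩
    obtain ⟨a, b, c, hab, hca, hcb, h1, h2⟩ := Pool.Agent.H239.NBS.exOuter m hm (∑ i, m i) rfl E hE x hx (pairs m)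
      (fun a b c h1 h2 h3 => pairs_eq m a b c h1 h2 h3) i j hij
    refine ⟨a, b, c, ⟨hab, hca, hcb⟩, ?_, ?_⟩
    · rw [relPosition_eq m hm x hx.2.1 a b c hab hca hcb]; exact h1
    · rw [relPosition_eq m hm x hx.2.1 a b c hab hca hcb]; exact h2
  · rintro x hx hNW a b c ⟨⟨hab, hca, hcb⟩, h1, h2⟩ X V hX hV
    rw [← hX] at h1 h2
    have hX' := hX
    have hV' := hV
    rw [relPosition_eq m hm x hx.2.1 a b c hab hca hcb] at hX
    rw [relVelocity_eq m hm x hx.2.2.1 a b c hab hca hcb] at hV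
    have hXn : 0 < ‖X‖ := by
      have := norm_nonneg (x.1 a - x.1 b)
      linarith
    have key := Pool.Agent.H239.NBS.outer m hm (∑ i, m i) rfl E hE ψ hφ.smooth φ hfl x hx hNW a b c hab hca hcb
      ((∑ i, m i) / (m a + m b)) rfl (by rw [← hX]; linarith)
      (by rw [← hX]; exact lt_of_le_of_lt (hpairs a b c hab hca hcb) h2)
    have hin := Pool.Agent.H239.NBS.innerB m hm (∑ i, m i) rfl E hE x hx a b c hab hca hcb
      ((∑ i, m i) / (m a + m b)) rfl (pairEnergy m a b x) rfl (by rw [← hX]; exact hXn)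
      (by rw [← hX]; linarith)
      (by rw [← hX, pairs_eq m a b c hab hca hcb]; exact h2) key
    have hvel : ((∑ i, m i) / (m a + m b)) • Pool.Agent.Y516.NW.vel m x c = V := by
      rw [hV]; rfl
    rw [← hX, hvel] at key
    rw [← hX] at hin
    rw [hsq]
    exact ⟨key, hin.1, hin.2⟩
  · rintro x hx a b c ⟨⟨hab, hca, hcb⟩, h1, h2⟩ X V hX hV hP hh s hs
    rw [← hX] at h1 h2
    rw [relPosition_eq m hm x hx.2.1 a b c hab hca hcb] at hX
    rw [relVelocity_eq m hm x hx.2.2.1 a b c hab hca hcb] at hV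
    rw [hsq] at hh
    have hf := hφ.flow x hx
    have h0 : φ 0 x = x := hf.1
    have hτ0 : Pool.Agent.T6.H53.NB.tau ψ φ x 0 = 0 := by unfold Pool.Agent.T6.H53.NB.tau; simp
    obtain ⟨τ', hmot'⟩ := Pool.Agent.Y516.NW.mot_of_flow m hm E ψ φ hfl x hx
    have hmot : Pool.Agent.Y516.NW.Mot m E (fun t => (φ t x).1) (fun t => Pool.Agent.Y516.NW.vel m (φ t x))
        (fun t => ψ (φ t x)) (Pool.Agent.T6.H53.NB.tau ψ φ x) :=
      ⟨hτ0, fun s => Pool.Agent.T6.H53.NB.tau_der m E ψ φ hfl x hx s, hmot'.cpos, hmot'.qd, hmot'.vd, hmot'.ne,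
        hmot'.en⟩
    have hvel : ((∑ i, m i) / (m a + m b)) • Pool.Agent.Y516.NW.vel m x c = V := by
      rw [hV]; rfl
    have key := Pool.Agent.H239.NBS.escMot m hm (∑ i, m i) rfl E hE (fun t => (φ t x).1)
      (fun t => Pool.Agent.Y516.NW.vel m (φ t x)) (fun t => ψ (φ t x)) (Pool.Agent.T6.H53.NB.tau ψ φ x) hmot
      (fun s => (hf.2 s).1.2.1) (fun s => Pool.Agent.T6.H53.NB.surf_mom m hm E _ (hf.2 s).1) a b c hab hca hcb
      ((∑ i, m i) / (m a + m b)) rfl (by simp only [h0]; rw [← hX, hvel]; exact hP)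
      (by simp only [h0]; rw [← hX]; linarith)
      (by simp only [h0]; rw [← hX]; exact (lt_of_le_of_lt (hpairs a b c hab hca hcb) h2).le)
      (by simp only [h0]; rw [← hX, hvel]; exact hh) s hs
    simp only [h0] at key
    rw [← hX, hvel] at key
    rw [relPosition_eq m hm (φ s x) (hf.2 s).1.2.1 a b c hab hca hcb]
    exact key

end Pool.Agent.Results.MP_70f7a7_an.SharpOuterEnergy
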